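import Pool.Agent.U469.EW.Stm

/-!
Project EW, package TRI: the trilinear sum, by two applications of the Cauchy-Schwarz inequality.
-/

set_option autoImplicit false

open MeasureTheory Set Filter Topology
open scoped ENNReal

namespace Pool.Agent.U606.EW.TRI

open Pool.Agent.U469.EW

/-- Cauchy-Schwarz for the inner sum -/
theorem inner_le (q r : Wv → ℝ) (hq : ∀ k, 0 ≤ q k) (hr : ∀ k, 0 ≤ r k)
    (sq : Summable fun k => q k ^ 2) (sr : Summable fun k => r k ^ 2) (σ : Wv → Wv)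
    (hσ : Function.Injective σ) :
    ∑' j, ENNReal.ofReal (q j * r (σ j)) ≤
      ENNReal.ofReal (√(∑' k, q k ^ 2) * √(∑' k, r k ^ 2)) := by
  rw [ENNReal.tsum_eq_iSup_sum]
  refine iSup_le fun s => ?_
  rw [← ENNReal.ofReal_sum_of_nonneg (fun j _ => mul_nonneg (hq j) (hr _))]
  apply ENNReal.ofReal_le_ofReal
  refine (Real.sum_mul_le_sqrt_mul_sqrt s q (fun j => r (σ j))).trans ?_
  have h1 : ∑ j ∈ s, q j ^ 2 ≤ ∑' k, q k ^ 2 := sq.sum_le_tsum s (fun k _ => sq_nonneg _)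
  have h2 : ∑ j ∈ s, r (σ j) ^ 2 ≤ ∑' k, r k ^ 2 := by
    rw [← Finset.sum_image (s := s) (g := σ) (f := fun k => r k ^ 2)
      (fun a _ b _ hab => hσ hab)]
    exact sr.sum_le_tsum _ (fun k _ => sq_nonneg _)
  exact mul_le_mul (Real.sqrt_le_sqrt h1) (Real.sqrt_le_sqrt h2) (Real.sqrt_nonneg _)
    (Real.sqrt_nonneg _)

theorem t_TRI : S_TRI := by
  intro B w p q r hw hp hq hr sp sq sr σ hσ
  have hK : 0 ≤ √(∑' k, q k ^ 2) * √(∑' k, r k ^ 2) :=
    mul_nonneg (Real.sqrt_nonneg _) (Real.sqrt_nonneg _)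
  have h1 : ∑ l ∈ B, ENNReal.ofReal (w l * p l) * ∑' j, ENNReal.ofReal (q j * r (σ l j)) ≤
      ∑ l ∈ B, ENNReal.ofReal (w l * p l) *
        ENNReal.ofReal (√(∑' k, q k ^ 2) * √(∑' k, r k ^ 2)) := by
    refine Finset.sum_le_sum fun l _ => ?_
    exact mul_le_mul_right (inner_le q r hq hr sq sr (σ l) (hσ l)) _
  refine h1.trans ?_
  rw [← Finset.sum_mul, ← ENNReal.ofReal_sum_of_nonneg (fun l _ => mul_nonneg (hw l) (hp l)),
    ← ENNReal.ofReal_mul (Finset.sum_nonneg fun l _ => mul_nonneg (hw l) (hp l))]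
  apply ENNReal.ofReal_le_ofReal
  refine mul_le_mul_of_nonneg_right ?_ hK
  refine (Real.sum_mul_le_sqrt_mul_sqrt B w p).trans ?_
  exact mul_le_mul_of_nonneg_left
    (Real.sqrt_le_sqrt (sp.sum_le_tsum B (fun k _ => sq_nonneg _))) (Real.sqrt_nonneg _)

end Pool.Agent.U606.EW.TRI
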